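import Pool.Agent.Helper57.BE.Final

/-!
# The error in the rank formula over the intermediate fields of a Galois extension, and for
quadratic twists
-/

set_option autoImplicit false

open BKA NumberField BE57

namespace Pool.Agent.Results.MP_6e2fc3_nt.BoundedError

/-- `V` is the Galois representation of a Hilbert modular form over `F`, `C` the local conditions,
`L / F` a finite Galois extension with group `L.G`, a subgroup `H` of which stands for `K = L^H`.
`L.Err C H χ x` says that the Selmer group of `V ⊗ χ` over `K` has finite dimension `s`, the
`L`-function has order `a` at `0` and `x = s - a` is the error in the rank formula; `kap n` is the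
product of `(p + 1) / (p - 1)` over the primes `p ∣ n`. -/
theorem result (F E k : Type) [Field F] [NumberField F] [Field E]
    -- a nonarchimedean field of characteristic `0`, with residue field of positive characteristic
    [Field k] [CharZero k] [TopologicalSpace k] [IsTopologicalRing k] (_ : IsNonarch k)
    (V : Repr F E k) (C : Local V.ρ)
    -- the local conditions are unramified at almost all places
    (_ : C.AlmostUnr) (L : Ext V)
    -- the `L`-functions have a continuation
    (_ : L.ContAll) :
    -- the errors `e H χ`
    ∃ e : (H : Subgroup L.G) → Ch E H → ℤ, (∀ H χ x, L.Err C H χ x ↔ x = e H χ) ∧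
    -- if the error is at most `B` over all `K` with `L / K` cyclic,
    ∀ B : ℝ, (∀ D : Subgroup L.G, IsCyclic D → |(e D Ch.triv : ℝ)| ≤ B) →
      -- then it is bounded by the mean absolute value of the induced characters
      (∀ (r : ℕ) (n : Fin r → ℤ) (H : Fin r → Subgroup L.G) (χ : ∀ i, Ch E (H i)),
        (∀ i, (χ i).Quad) → |((∑ i, n i * e (H i) (χ i) : ℤ) : ℝ)| ≤
          (kap (Nat.card L.G) : ℝ) * B *
            ((∑ g : L.G, ‖∑ i, (n i : ℂ) * ind (H i) ((χ i).map V.ι) g‖) / Nat.card L.G)) ∧
      -- in particular, the sum of the squares of the errors for quadratic twists is bounded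
      ∀ (H : Subgroup L.G) (r : ℕ) (χ : Fin r → Ch E H), Function.Injective χ →
        (∀ i, (χ i).Quad) →
        ∑ i, (e H (χ i) : ℝ) ^ 2 ≤ ((kap (Nat.card L.G) : ℝ) * B) ^ 2 :=
  be_final F E k ‹_› V C ‹_› L ‹_›

end Pool.Agent.Results.MP_6e2fc3_nt.BoundedError
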