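import Pool.Agent.Helper64.BKA.T2S

/-!
# The rank formula follows from the rank formula over intermediate fields of a Galois extension at
which the local representations are reducible
-/

set_option autoImplicit false

open BKA NumberField

namespace Pool.Agent.Results.MP_6e2fc3_nt.CyclicReduction

/-- `V` is the Galois representation of a Hilbert modular form over `F`, `C` the local conditions,
`L / F` a finite Galois extension with group `L.G`, a subgroup `H` of which stands for `K = L^H`.
`L.RankF C H` is the rank formula over `K`, including the finite dimension of the Selmer group and
the continuation `L.Cont H` of the `L`-function. -/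
theorem result (F E k : Type) [Field F] [NumberField F] [Field E] [Field k] [CharZero k]
    [TopologicalSpace k] [IsTopologicalRing k] (V : Repr F E k) (C : Local V.ρ) (L : Ext V)
    -- the Galois group maps onto `(ℤ / n)²`
    (n : ℕ) (φ : L.G →* Multiplicative (ZMod n × ZMod n)) (_ : Function.Surjective φ)
    -- representations which are unipotent on the inertia groups over `L` at a set of places
    (T : Set (Aux F)) (_ : ∀ R ∈ T, R.Unip L.N)
    -- the rank formula over the fields `K = L^H` with `L / K` cyclic, `n ∣ [K : F]`, at which the
    -- local representations are reducible
    (_ : ∀ H : Subgroup L.G, IsCyclic H → n ∣ H.index → (∀ R ∈ T, R.Red (L.gal H)) → L.RankF C H)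
    -- the rank formula holds over all intermediate fields, in particular over `F`, for which the
    -- `L`-function has a continuation
    (H : Subgroup L.G) (_ : L.Cont H) : L.RankF C H :=
  t2f F E k V C L n φ ‹_› T ‹_› ‹_› H ‹_›

end Pool.Agent.Results.MP_6e2fc3_nt.CyclicReduction
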