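import Pool.Agent.Helper94.SF.T1F

/-!
# Parity of the rank formula over Galois extensions with a normal `2`-complement
-/

set_option autoImplicit false

open BKA NumberField

namespace Pool.Agent.Results.MP_6e2fc3_nt.ParityTwoNilpotent

/-- `V` is the Galois representation of a Hilbert modular form over `F`, `C` the local conditions,
`L / F` a finite Galois extension with group `L.G`, a subgroup `H` of which stands for `K = L^H`. -/
theorem result (F E k : Type) [Field F] [NumberField F] [Field E]
    -- a nonarchimedean field of characteristic `0`, with residue field of positive characteristic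
    [Field k] [CharZero k] [TopologicalSpace k] [IsTopologicalRing k] (_ : IsNonarch k)
    (V : Repr F E k) (C : Local V.ρ)
    -- the local conditions are unramified at almost all places
    (_ : C.AlmostUnr) (L : Ext V)
    -- the coefficients contain the values of all characters of subgroups of the Galois group
    [HasEnoughRootsOfUnity E (Monoid.exponent L.G)]
    -- the `L`-functions have a continuation
    (_ : L.ContAll)
    -- `V` and `C` are defined over the fixed field of an automorphism of `k` which inverts the roots
    -- of unity; or duality: the Selmer groups of `V ⊗ χ` and `V ⊗ χ⁻¹` have the same dimension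
    (_ : L.InvRoots C ∨ L.DualDim C)
    -- the Galois group has a normal solvable subgroup of odd order, with index a power of `2`
    (A : Subgroup L.G) [A.Normal] (_ : Odd (Nat.card A)) (_ : Group.IsSolvable A)
    (_ : ∃ n : ℕ, A.index = 2 ^ n)
    -- parity over `F` for the twists of `V` by the characters `χ` of the Galois group with `χ² = 1`
    (_ : ∀ χ : Ch E (⊤ : Subgroup L.G), χ.Quad → L.Par C ⊤ χ)
    -- finite dimension and parity for `V` over all intermediate fields `K` with `[L : K]` odd, in
    -- particular over `L`
    (H : Subgroup L.G) (_ : Odd (Nat.card H)) : L.ParF C H :=
  SF94.t1f F E k ‹_› V C ‹_› L ‹_› ‹_› A ‹_› ‹_› ‹_› ‹_› H ‹_›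

end Pool.Agent.Results.MP_6e2fc3_nt.ParityTwoNilpotent
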