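import Pool.Agent.Helper64.BKS.T3S
import Pool.Agent.Helper64.BKS.EX
import Pool.Agent.Helper64.BKS.TRF
import Pool.Agent.Helper17.BKS.GL1
import Pool.Agent.Helper18.BKS.PHI
import Pool.Agent.Helper19.BKS.BLD
import Pool.Agent.Helper19.BKS.DSJ
import Pool.Agent.Helper19.BKS.ENL
import Pool.Agent.Helper28.BKS.HEN
import Pool.Agent.Helper34.BKS.CYCX
import Pool.Agent.Helper34.BKS.EXU
import Pool.Agent.Helper34.BKS.KUM
import Pool.Agent.Helper53.BKS.ELM
import Pool.Agent.Helper58.BKS.COR
import Pool.Agent.Helper8.BKS.SLV
import Pool.Agent.Helper91.BKS.TRA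
import Pool.Agent.Helper98.BKS.KUC
import Pool.Agent.Helper98.BKS.STEP
import Pool.Agent.Helper18.REC.FRM
import Pool.Agent.Helper48.REC.APX
import Pool.Agent.Helper2.REC.DN1
import Pool.Agent.Helper20.REC.SPY
import Pool.Agent.Helper76.BKA.SUM

/-!
# The rank formula follows from the rank formula over totally real fields in solvable extensions
over which the form is nowhere supercuspidal
-/

set_option autoImplicit false

open BKA NumberField

namespace Pool.Agent.Results.MP_6e2fc3_nt.SolvableReduction

/-- existence of the local to global solvable extensions -/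
theorem ex : BKS.ST_EX := by
  have gl1 : BKS.ST_GL1 := BKS.st_GL1 BKS.st_EXU
    (BKS.st_PHI BKS.st_TRA BKS.st_KUM BKS.st_KUC Pool.Agent.Helper28.BKS.st_HEN
      Pool.Agent.Helper48.REC.st_APX) BKS.st_TRF
  have dn1 : REC.ST_DN1 := REC.st_DN1 Pool.Agent.Helper20.REC.st_SPY
  exact BKS.st_EX (BKS.st_STEP gl1 BKS.st_SLV BKS.st_COR)
    (BKS.st_ELM BKS.st_CYCX dn1 REC.st_OVP gl1 BKS.st_COR) (BKS.st_DSJ dn1 REC.st_OVP) REC.st_OVP

/-- `V` is the Galois representation of a Hilbert modular form over `F`, `C` the local conditions.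
The extensions `L / F` are finite Galois extensions with group `L.G`, a subgroup `H` of which stands
for `K = L^H`; `V.enl S' h` is `V`, with more places in the finite set of bad places. `L.RankF C H`
is the rank formula over `K`, including the finite dimension of the Selmer group and the
continuation `L.Cont H` of the `L`-function. -/
theorem result (F E k : Type) [Field F] [NumberField F] [Field E] [Field k] [CharZero k]
    [TopologicalSpace k] [IsTopologicalRing k] (V : Repr F E k) (C : Local V.ρ)
    -- purity
    (_ : ∀ v ∉ V.S, ∀ j, ‖V.α v j‖ < 1) (n : ℕ) (_ : 0 < n)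
    -- the places in `A` shall split completely
    (A B : Finset (Pl F)) (_ : Disjoint A B)
    -- representations which are unipotent on the inertia groups at the places in `B` over an
    -- extension of `F` with Galois group `M`
    (M : Subgroup (Gal F)) (_ : M.Normal) (_ : IsOpen (M : Set (Gal F)))
    (T : Set (Aux F)) (_ : ∀ R ∈ T, R.B ⊆ B ∧ R.Unip M)
    -- the rank formula over the fields `K = L^H`, `L / F` solvable and totally real, with `L / K`
    -- cyclic and `n ∣ [K : F]`, at which the local representations are reducible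
    (_ : ∀ (S' : Finset (Pl F)) (h : V.S ⊆ S') (L : Ext (V.enl S' h)), L.Nice A M →
      ∀ H : Subgroup L.G, IsCyclic H → n ∣ H.index → (∀ R ∈ T, R.Red (L.gal H)) → L.RankF C H)
    -- the rank formula holds over `F` if the `L`-function has a continuation
    (L₀ : Ext V) (_ : L₀.Cont ⊤) : L₀.RankF C ⊤ :=
  t3f ex (st_BLD Pool.Agent.Helper18.REC.st_FRM REC.st_OVP) (st_ENL st_SUM) F E k V C ‹_› n ‹_›
    A B ‹_› M ‹_› ‹_› T ‹_› ‹_› L₀ ‹_›

end Pool.Agent.Results.MP_6e2fc3_nt.SolvableReduction
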